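import Pool.Agent.H30R2.PS.Circ2

set_option autoImplicit false

/-! # Symmetric networks counting the perfect matchings of graphs of degree four

Networks (`Circ`) read the adjacency matrix of a bipartite graph with `n + n` vertices and have
`m` outputs; the values of the gates are elements of an arbitrary set `K` (bits, integers, real
numbers, ...) and every gate computes an arbitrary function of the multiset of its inputs.  They
are required to be symmetric only under the elementary abelian group of order `2 ^ (7 w)` generated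
by the translations of `2 w` quadruples of rows and the swaps of `3 w` pairs of columns,
`8 w ≤ n`. -/

namespace Pool.Agent.Results.MP_381749_lc.SmallGroupMatchings

open Pool.Agent.H30R2.PS

theorem result :
    -- the lower bound
    (∀ (K : Type) (b0 b1 : K) (m : ℕ) (dec : (Fin m → K) → ℕ) (M : ℕ), (∀ k : ℕ, ¬ M ∣ 2 ^ k) →
      ∀ n w : ℕ, 0 < n → 8 * w ≤ n →
      ∀ (ρ : Fin (2 * w) × Four ↪ Fin n) (κ : Fin (3 * w) × ZMod 2 ↪ Fin n)
        (Gt : Type) [Fintype Gt] (C : Circ (Fin n × Fin n) K m Gt),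
      (∀ x : Fin n × Fin n → Bool, DegLe 4 x →
        dec (fun j => C.val (fun i => if x i = true then b1 else b0) (C.outs j)) = pm x % M) →
      (∀ (U : Fin (2 * w) → Four) (a : Fin (3 * w) → ZMod 2), ∃ φ, C.IsAut
        (((quadPerm U).viaEmbedding ρ).prodCongr ((pairPerm a).viaEmbedding κ)) φ) →
      2 ^ (w / 210000) ≤ Nat.card Gt) ∧
    -- conversely, every network can be made symmetric
    (∀ (K : Type) (b0 b1 : K) (m n : ℕ) (enc : ℕ → Fin m → K) (F0 : Multiset K → K),
      (∀ (a : K) (k : ℕ), 0 < k → F0 (k • {a}) = a) →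
      ∀ (Δ : ℕ) (D : Subgroup (Equiv.Perm (Fin n) × Equiv.Perm (Fin n)))
        (Gt : Type) [Fintype Gt] (C : Circ (Fin n × Fin n) K m Gt),
      (∀ x : Fin n × Fin n → Bool, DegLe Δ x → ∀ j,
        C.val (fun i => if x i = true then b1 else b0) (C.outs j) = enc (pm x) j) →
      ∃ (Gt' : Type) (_ : Fintype Gt') (C' : Circ (Fin n × Fin n) K m Gt'),
        (∀ x : Fin n × Fin n → Bool, DegLe Δ x → ∀ j,
          C'.val (fun i => if x i = true then b1 else b0) (C'.outs j) = enc (pm x) j) ∧
        (∀ d ∈ D, ∃ φ, C'.IsAut (d.1.prodCongr d.2) φ) ∧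
        (∀ g, C'.F g = F0 ∨ ∃ h, C'.F g = C.F h) ∧
        Nat.card Gt' = Nat.card D * Nat.card Gt + m) := by
  refine ⟨?_, ?_⟩
  · intro K b0 b1 m dec M hM n w hn0 hn ρ κ Gt _ C hcomp hsym
    rw [Nat.card_eq_fintype_card]
    exact match_bound b0 b1 dec M hM n w hn0 hn ρ κ Gt C hcomp hsym
  · intro K b0 b1 m n enc F0 hF0 Δ D Gt _ C hcomp
    exact match_converse b0 b1 enc F0 hF0 Δ D Gt C hcomp

end Pool.Agent.Results.MP_381749_lc.SmallGroupMatchings
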